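import Pool.Agent.MWGX.StmtsA

/-!
# MWGX, row EXO: exchange, the order of two light letters
-/

set_option autoImplicit false

namespace Pool.Agent.MWGX.H93

open Pool.Agent.MWK (pre)
open Pool.Agent.MWGN (nn)
open Pool.Agent.MWGQ (pw)

theorem mem_pre_app {U V : List ℕ} {x y : ℕ} :
    x ∈ pre (U ++ V) y ↔ x ∈ pre U y ∨ (y ∉ U ∧ x ∈ pre V y) := by
  by_cases h : y ∈ U
  · rw [MWK.pre_append_mem h]
    constructor
    · exact Or.inl
    · rintro (h1 | h1)
      · exact h1
      · exact absurd h h1.1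
  · rw [MWK.pre_append h, List.mem_append, MWK.pre_not_mem h]
    constructor
    · rintro (h1 | h1)
      · exact Or.inl h1
      · exact Or.inr ⟨h, h1⟩
    · rintro (h1 | h1)
      · exact Or.inl h1
      · exact Or.inr h1.2

/-- `q` is not in the six words -/
def N6 (q : ℕ) (Z1 Z2 Z3 Z4 Z5 Z6 : List ℕ) : Prop :=
  q ∉ Z1 ∧ q ∉ Z2 ∧ q ∉ Z3 ∧ q ∉ Z4 ∧ q ∉ Z5 ∧ q ∉ Z6

theorem core {p Z1 Z2 Z3 Z4 Z5 Z6 A B R : List ℕ} {q1 q2 : ℕ} (p1 : q1 ∉ p)
    (p2 : q2 ∉ p) (z1 : N6 q1 Z1 Z2 Z3 Z4 Z5 Z6) (z2 : N6 q2 Z1 Z2 Z3 Z4 Z5 Z6)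
    (h1 : q1 ∈ pre (p ++ (Z1 ++ (A ++ (Z2 ++ (B ++ (Z3 ++ R)))))) q2)
    (h2 : q1 ∉ pre (p ++ (Z4 ++ (B ++ (Z5 ++ (A ++ (Z6 ++ R)))))) q2) :
    q1 ∈ A ∧ q2 ∈ B := by
  rw [mem_pre_app, mem_pre_app, mem_pre_app, mem_pre_app, mem_pre_app, mem_pre_app] at h1 h2
  obtain ⟨z11, z12, z13, z14, z15, z16⟩ := z1
  obtain ⟨z21, z22, z23, z24, z25, z26⟩ := z2
  have a1 : ∀ {Y : List ℕ}, q1 ∉ Y → q1 ∉ pre Y q2 := fun h h' => h (MWK.mem_of_mem_pre h')
  have b0 := a1 p1
  have b1 := a1 z11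
  have b2 := a1 z12
  have b3 := a1 z13
  have b4 := a1 z14
  have b5 := a1 z15
  have b6 := a1 z16
  simp only [b0, b1, b2, b3, b4, b5, b6, p2, z21, z22, z23, z24, z25, z26, false_or,
    not_false_eq_true, true_and] at h1 h2
  have k1 : q1 ∉ pre B q2 := fun h => h2 (Or.inl h)
  by_cases hB2 : q2 ∈ B
  · rcases h1 with h1 | ⟨-, h1 | ⟨h1, -⟩⟩
    · exact ⟨MWK.mem_of_mem_pre h1, hB2⟩
    · exact absurd h1 k1
    · exact absurd hB2 h1
  · exfalso
    have k2 : ¬ (q1 ∈ pre A q2 ∨ q2 ∉ A ∧ q1 ∈ pre R q2) := fun h => h2 (Or.inr ⟨hB2, h⟩)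
    rcases h1 with h1 | ⟨h3, h1 | ⟨-, h1⟩⟩
    · exact k2 (Or.inl h1)
    · exact k1 h1
    · exact k2 (Or.inr ⟨h3, h1⟩)

/-- the two words, one list after the other -/
theorem e_split {n c : ℕ} {p Z A B F G H w w' : List ℕ} (h : Ex n c p Z A B F G H w w') :
    w = p ++ (pw n Z ++ (A ++ (pw (n + c) Z ++ (B ++ (pw n Z ++
      (F ++ (A ++ (G ++ (B ++ H))))))))) ∧
    w' = p ++ (pw (n + c) Z ++ (B ++ (pw (n + (n - 1) * c) Z ++ (A ++ (pw (n + c) Z ++
      (F ++ (A ++ (G ++ (B ++ H))))))))) := by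
  constructor
  · rw [h.e]; simp only [gL, List.append_assoc]
  · rw [h.e']; simp only [gR, List.append_assoc]

/-- common facts -/
structure Fac (n c : ℕ) (p Z A B F G H w w' : List ℕ) (q1 q2 s : ℕ) : Prop where
  z1 : q1 ∉ Z
  z2 : q2 ∉ Z
  d1 : ¬ (q1 ∈ A ∧ q1 ∈ B)
  d2 : ¬ (q2 ∈ A ∧ q2 ∈ B)
  p1 : q1 ∉ p
  p2 : q2 ∉ p
  sF : q1 ∈ A ∨ q2 ∈ A → s ∈ F
  dd : s ∈ F → ∀ d, nn w d s = w.count d → d ∉ A ∧ d ∉ B

theorem sZ {n z : ℕ} (hn : 1 ≤ n) (h : n * z ≤ 0) : z = 0 := by
  rcases Nat.eq_zero_or_pos z with h1 | h1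
  · exact h1
  · have := Nat.mul_le_mul hn h1
    omega

theorem fac {n c : ℕ} {p Z A B F G H w w' : List ℕ} (hn : 1 ≤ n)
    (h : Ex n c p Z A B F G H w w') {q1 q2 s : ℕ} (hs : w.count s = 1)
    (e1 : nn w q1 s = 1) (e2 : nn w q2 s = 1)
    (hq2 : q2 ∉ p) (hq1 : q1 ∉ p) : Fac n c p Z A B F G H w w' q1 q2 s := by
  obtain ⟨ew, -⟩ := e_split h
  -- `s`
  have sp : s ∉ p := by
    intro hsp
    apply hq2
    have h1 : q2 ∈ pre w s := by
      apply List.count_pos_iff.1
      unfold nn at e2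
      omega
    rw [ew, MWK.pre_append_mem hsp] at h1
    exact MWK.mem_of_mem_pre h1
  have hcs : p.count s + (n * Z.count s + (A.count s + ((n + c) * Z.count s + (B.count s +
      (n * Z.count s + (F.count s + (A.count s + (G.count s + (B.count s + H.count s))))))))) =
      1 := by
    rw [ew] at hs
    simpa only [List.count_append, count_pw] using hs
  have hsZ : s ∉ Z := by
    rw [← List.count_eq_zero]
    rcases Nat.eq_zero_or_pos (Z.count s) with h1 | h1
    · exact h1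
    · have h2 := Nat.mul_le_mul hn h1
      omega
  have hsA : s ∉ A := by
    rw [← List.count_eq_zero]
    omega
  have hsB : s ∉ B := by
    rw [← List.count_eq_zero]
    omega
  have hsp' : ∀ k, s ∉ pw k Z := fun k hk => hsZ (mem_pw hk)
  have pws : pre w s = p ++ (pw n Z ++ (A ++ (pw (n + c) Z ++ (B ++ (pw n Z ++
      pre (F ++ (A ++ (G ++ (B ++ H)))) s))))) := by
    rw [ew, MWK.pre_append sp, MWK.pre_append (hsp' _), MWK.pre_append hsA,
      MWK.pre_append (hsp' _), MWK.pre_append hsB, MWK.pre_append (hsp' _)]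
  have cnt : ∀ q, nn w q s = p.count q + (n * Z.count q + (A.count q + ((n + c) * Z.count q +
      (B.count q + (n * Z.count q + (pre (F ++ (A ++ (G ++ (B ++ H)))) s).count q))))) := by
    intro q
    unfold nn
    rw [pws]
    simp only [List.count_append, count_pw]
  have zz : ∀ q, nn w q s = 1 → q ∉ Z ∧ ¬ (q ∈ A ∧ q ∈ B) ∧
      (q ∈ A → s ∈ F) := by
    intro q hq
    rw [cnt q] at hq
    refine ⟨?_, ?_, ?_⟩
    · rw [← List.count_eq_zero]
      rcases Nat.eq_zero_or_pos (Z.count q) with h1 | h1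
      · exact h1
      · have h2 := Nat.mul_le_mul hn h1
        omega
    · rintro ⟨hA, hB⟩
      have h1 := List.count_pos_iff.2 hA
      have h2 := List.count_pos_iff.2 hB
      omega
    · intro hA
      by_contra hF
      have h1 := List.count_pos_iff.2 hA
      rw [MWK.pre_append hF, MWK.pre_append hsA, List.count_append, List.count_append] at hq
      omega
  refine ⟨(zz q1 e1).1, (zz q2 e2).1, (zz q1 e1).2.1, (zz q2 e2).2.1, hq1, hq2, ?_, ?_⟩
  · rintro (h1 | h1)
    · exact (zz q1 e1).2.2 h1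
    · exact (zz q2 e2).2.2 h1
  · intro hF d hd
    have h1 : w.count d = p.count d + (n * Z.count d + (A.count d + ((n + c) * Z.count d +
        (B.count d + (n * Z.count d + (F.count d + (A.count d + (G.count d + (B.count d +
        H.count d))))))))) := by
      rw [ew]
      simp only [List.count_append, count_pw]
    rw [cnt d, h1, MWK.pre_append_mem hF] at hd
    have h2 := MWK.count_pre_le F d s
    constructor
    · rw [← List.count_eq_zero]
      omega
    · rw [← List.count_eq_zero]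
      omega

theorem exo (hEXS : ExsStmt) : ExoStmt := by
  intro n c p Z A B F G H w w' hn h q1 q2 s hs hq1s hq2s e1 e2
  obtain ⟨hOX, -, -⟩ := hEXS n c p Z A B F G H w w' hn h
  have hs' : w'.count s = 1 := (hOX.c1 s).1 hs
  have e1' : nn w' q1 s = 1 := (hOX.n1 s hs q1 hq1s).1 e1
  have e2' : nn w' q2 s = 1 := (hOX.n1 s hs q2 hq2s).1 e2
  obtain ⟨ew, ew'⟩ := e_split h
  have le : nn w q1 q2 ≤ 1 := by
    have h1 : q2 ∈ pre w s := List.count_pos_iff.1 (by unfold nn at e2; omega)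
    have h2 := MWK.count_pre_mono h1 q1
    unfold nn at e1 ⊢
    omega
  have le' : nn w' q1 q2 ≤ 1 := by
    have h1 : q2 ∈ pre w' s := List.count_pos_iff.1 (by unfold nn at e2'; omega)
    have h2 := MWK.count_pre_mono h1 q1
    unfold nn at e1' ⊢
    omega
  have hp2 : nn w q1 q2 ≠ nn w' q1 q2 → q2 ∉ p := by
    intro hne hp
    apply hne
    unfold nn
    rw [ew, ew', MWK.pre_append_mem hp, MWK.pre_append_mem hp]
  have n6 : ∀ q, q ∉ Z → N6 q (pw n Z) (pw (n + c) Z) (pw n Z) (pw (n + c) Z)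
      (pw (n + (n - 1) * c) Z) (pw (n + c) Z) := by
    intro q hq
    have h1 : ∀ k, q ∉ pw k Z := fun k hk => hq (mem_pw hk)
    exact ⟨h1 _, h1 _, h1 _, h1 _, h1 _, h1 _⟩
  have n6' : ∀ q, q ∉ Z → N6 q (pw (n + c) Z) (pw (n + (n - 1) * c) Z) (pw (n + c) Z)
      (pw n Z) (pw (n + c) Z) (pw n Z) := by
    intro q hq
    have h1 : ∀ k, q ∉ pw k Z := fun k hk => hq (mem_pw hk)
    exact ⟨h1 _, h1 _, h1 _, h1 _, h1 _, h1 _⟩
  constructor
  · intro a1 a2
    have hq2 : q2 ∉ p := hp2 (fun e => a2 (e ▸ a1))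
    have m2 : q1 ∉ pre w' q2 := by
      rw [← List.count_eq_zero]
      unfold nn at le' a2
      omega
    have m1 : q1 ∈ pre w q2 := List.count_pos_iff.1 (by unfold nn at a1; omega)
    have hq1 : q1 ∉ p := by
      intro hp
      apply m2
      rw [ew', MWK.pre_append hq2]
      exact List.mem_append_left _ hp
    have hf := fac hn h hs e1 e2 hq2 hq1
    have hc := core (R := F ++ (A ++ (G ++ (B ++ H)))) hq1 hq2 (n6 q1 hf.z1) (n6 q2 hf.z2)
      (by rw [← ew]; exact m1) (by rw [← ew']; exact m2)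
    have hsF := hf.sF (Or.inl hc.1)
    refine ⟨hc.1, hc.2, hsF, ?_⟩
    intro d _ hd
    obtain ⟨dA, dB⟩ := hf.dd hsF d hd
    have q1Z : ∀ k, q1 ∉ pw k Z := fun k hk => hf.z1 (mem_pw hk)
    have q2Z : ∀ k, q2 ∉ pw k Z := fun k hk => hf.z2 (mem_pw hk)
    have q2A : q2 ∉ A := fun hA => hf.d2 ⟨hA, hc.2⟩
    have c1 : nn w d q1 = p.count d + n * Z.count d := by
      unfold nn
      rw [ew, MWK.pre_append hq1, MWK.pre_append (q1Z _), MWK.pre_append_mem hc.1,
        List.count_append, List.count_append, count_pw,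
        List.count_eq_zero.2 (fun hh => dA (MWK.mem_of_mem_pre hh))]
      omega
    have c2 : nn w d q2 = p.count d + (n * Z.count d + (n + c) * Z.count d) := by
      unfold nn
      rw [ew, MWK.pre_append hq2, MWK.pre_append (q2Z _), MWK.pre_append q2A,
        MWK.pre_append (q2Z _), MWK.pre_append_mem hc.2, List.count_append, List.count_append,
        List.count_append, List.count_append, count_pw, count_pw, List.count_eq_zero.2 dA,
        List.count_eq_zero.2 (fun hh => dB (MWK.mem_of_mem_pre hh))]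
      omega
    rw [c1, c2]
    have e : p.count d + (n * Z.count d + (n + c) * Z.count d) =
        (p.count d + n * Z.count d + c * Z.count d) + n * Z.count d := by ring
    rw [e]
    show _ % n = _ % n
    rw [Nat.add_mul_mod_self_left]
  · intro a1 a2
    have hq2 : q2 ∉ p := hp2 (fun e => a2 (e ▸ a1))
    have m2 : q1 ∉ pre w q2 := by
      rw [← List.count_eq_zero]
      unfold nn at le a2
      omega
    have m1 : q1 ∈ pre w' q2 := List.count_pos_iff.1 (by unfold nn at a1; omega)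
    have hq1 : q1 ∉ p := by
      intro hp
      apply m2
      rw [ew, MWK.pre_append hq2]
      exact List.mem_append_left _ hp
    have hf := fac hn h hs e1 e2 hq2 hq1
    have hc := core (A := B) (B := A) (R := F ++ (A ++ (G ++ (B ++ H)))) hq1 hq2
      (n6' q1 hf.z1) (n6' q2 hf.z2)
      (by rw [← ew']; exact m1) (by rw [← ew]; exact m2)
    have hsF := hf.sF (Or.inr hc.2)
    refine ⟨hc.1, hc.2, hsF, ?_⟩
    intro d _ hd
    obtain ⟨dA, dB⟩ := hf.dd hsF d hd
    have q1Z : ∀ k, q1 ∉ pw k Z := fun k hk => hf.z1 (mem_pw hk)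
    have q2Z : ∀ k, q2 ∉ pw k Z := fun k hk => hf.z2 (mem_pw hk)
    have q2B : q2 ∉ B := fun hB => hf.d2 ⟨hc.2, hB⟩
    have c1 : nn w' d q1 = p.count d + (n + c) * Z.count d := by
      unfold nn
      rw [ew', MWK.pre_append hq1, MWK.pre_append (q1Z _), MWK.pre_append_mem hc.1,
        List.count_append, List.count_append, count_pw,
        List.count_eq_zero.2 (fun hh => dB (MWK.mem_of_mem_pre hh))]
      omega
    have c2 : nn w' d q2 = p.count d + ((n + c) * Z.count d + (n + (n - 1) * c) * Z.count d) := by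
      unfold nn
      rw [ew', MWK.pre_append hq2, MWK.pre_append (q2Z _), MWK.pre_append q2B,
        MWK.pre_append (q2Z _), MWK.pre_append_mem hc.2, List.count_append, List.count_append,
        List.count_append, List.count_append, count_pw, count_pw, List.count_eq_zero.2 dB,
        List.count_eq_zero.2 (fun hh => dA (MWK.mem_of_mem_pre hh))]
      omega
    rw [c1, c2]
    obtain ⟨m, rfl⟩ : ∃ m, n = m + 1 := ⟨n - 1, by omega⟩
    have e : p.count d + ((m + 1 + c) * Z.count d + (m + 1 + (m + 1 - 1) * c) * Z.count d) +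
        c * Z.count d =
        (p.count d + (m + 1 + c) * Z.count d) + (m + 1) * (Z.count d + c * Z.count d) := by
      rw [Nat.add_sub_cancel]
      ring
    rw [e]
    show _ % (m + 1) = _ % (m + 1)
    rw [Nat.add_mul_mod_self_left]

end Pool.Agent.MWGX.H93
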